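import Pool.Agent.H62.TD.Rec

/-!
# Commuting difference operators in characteristic `p` (radial periodic Toda lattice)
-/

set_option autoImplicit false

namespace Pool.Agent.H62.TD

open Finset

/-! ### the adjoint action in characteristic `p` -/

theorem ad_pow {R : Type*} [Ring R] (p : ℕ) (hp : p.Prime) (hp2 : p ≠ 2)
    (h0 : ∀ x : R, (p : R) * x = 0) (L T : R) :
    (fun T => L * T - T * L)^[p] T = L ^ p * T - T * L ^ p := by
  set l : Module.End ℤ R := (AddMonoidHom.mulLeft L).toIntLinearMap with hl
  set r : Module.End ℤ R := (AddMonoidHom.mulRight L).toIntLinearMap with hr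
  have hla : ∀ x, l x = L * x := fun x => rfl
  have hra : ∀ x, r x = x * L := fun x => rfl
  have hcomm : Commute l (-r) := by
    rw [Commute.neg_right_iff]
    ext x
    rw [Module.End.mul_apply, Module.End.mul_apply, hla, hra, hla, hra, mul_assoc]
  obtain ⟨s, hs⟩ := hcomm.exists_add_pow_prime_eq hp
  have hp0 : (p : Module.End ℤ R) = 0 := by
    ext x
    have : (p : Module.End ℤ R) x = (p : R) * x := by
      rw [Module.End.natCast_apply, nsmul_eq_mul]
    rw [this, h0, LinearMap.zero_apply]
  have hodd : Odd p := hp.odd_of_ne_two hp2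
  rw [hp0, zero_mul, zero_mul, zero_mul, add_zero, hodd.neg_pow] at hs
  have h1 : ∀ m : ℕ, ∀ T, ((l + -r) ^ m) T = (fun T => L * T - T * L)^[m] T := by
    intro m
    induction m with
    | zero => intro T; rfl
    | succ m ih =>
      intro T
      rw [pow_succ', Module.End.mul_apply, ih, Function.iterate_succ_apply', LinearMap.add_apply,
        LinearMap.neg_apply, hla, hra, ← sub_eq_add_neg]
  have h2 : ∀ m : ℕ, ∀ T, (l ^ m) T = L ^ m * T := by
    intro m
    induction m with
    | zero => intro T; simp
    | succ m ih => intro T; rw [pow_succ', Module.End.mul_apply, ih, hla, pow_succ', mul_assoc]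
  have h3 : ∀ m : ℕ, ∀ T, (r ^ m) T = T * L ^ m := by
    intro m
    induction m with
    | zero => intro T; simp
    | succ m ih => intro T; rw [pow_succ', Module.End.mul_apply, ih, hra, pow_succ, mul_assoc]
  rw [← h1, hs, LinearMap.add_apply, LinearMap.neg_apply, h2, h3, sub_eq_add_neg]

section

variable {Λ : Type*} [CommRing Λ]

/-- `(L f)_k = θ f_k + ν k f_k - f_(k-1) - d_k f_k` -/
def opL (θ : Derivation ℤ Λ Λ) (ν : Λ) (d : ℤ → Λ) : Module.End ℤ (ℤ → Λ) where
  toFun f k := θ (f k) + ν * k * f k - f (k - 1) - d k * f k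
  map_add' f g := by
    ext k
    simp only [Pi.add_apply, map_add]
    ring
  map_smul' c f := by
    ext k
    have h := θ.map_smul c (f k)
    simp only [Pi.smul_apply, RingHom.id_apply] at h ⊢
    rw [h]
    simp only [zsmul_eq_mul]
    ring

/-- `(Z f)_k = θ f_k - b_k f_(k+1)` -/
def opZ (θ : Derivation ℤ Λ Λ) (b : ℤ → Λ) : Module.End ℤ (ℤ → Λ) where
  toFun f k := θ (f k) - b k * f (k + 1)
  map_add' f g := by
    ext k
    simp only [Pi.add_apply, map_add]
    ring
  map_smul' c f := by
    ext k
    have h := θ.map_smul c (f k)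
    simp only [Pi.smul_apply, RingHom.id_apply] at h ⊢
    rw [h]
    simp only [zsmul_eq_mul]
    ring

/-- multiplication by a constant -/
def opC (c : Λ) : Module.End ℤ (ℤ → Λ) where
  toFun f k := c * f k
  map_add' f g := by
    ext k
    simp only [Pi.add_apply]
    ring
  map_smul' m f := by
    ext k
    simp only [Pi.smul_apply, RingHom.id_apply, zsmul_eq_mul]
    ring

/-- shift by `n` -/
def opT (n : ℕ) : Module.End ℤ (ℤ → Λ) where
  toFun f k := f (k - n)
  map_add' _ _ := rfl
  map_smul' _ _ := rfl

theorem opL_apply (θ : Derivation ℤ Λ Λ) (ν : Λ) (d : ℤ → Λ) (f : ℤ → Λ) (k : ℤ) :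
    opL θ ν d f k = θ (f k) + ν * k * f k - f (k - 1) - d k * f k := rfl

theorem opZ_apply (θ : Derivation ℤ Λ Λ) (b : ℤ → Λ) (f : ℤ → Λ) (k : ℤ) :
    opZ θ b f k = θ (f k) - b k * f (k + 1) := rfl

theorem opC_apply (c : Λ) (f : ℤ → Λ) (k : ℤ) : opC c f k = c * f k := rfl

theorem opT_apply (n : ℕ) (f : ℤ → Λ) (k : ℤ) :
    (opT n : Module.End ℤ (ℤ → Λ)) f k = f (k - n) := rfl

variable (θ : Derivation ℤ Λ Λ) (ν : Λ) (b d : ℤ → Λ)

theorem comm_LZ (hν : θ ν = 0) (hb : ∀ k, θ (b k) = (ν + d k - d (k + 1)) * b k)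
    (hd : ∀ k, θ (d k) = b k - b (k - 1)) : opL θ ν d * opZ θ b = opZ θ b * opL θ ν d := by
  ext f k
  have hk : θ (k : Λ) = 0 := by
    have := θ.map_intCast k
    exact this
  simp only [Module.End.mul_apply, opL_apply, opZ_apply, map_sub, map_add, Derivation.leibniz,
    smul_eq_mul, hb, hd, hν, hk]
  push_cast
  rw [show k - 1 + 1 = k by ring, show k + 1 - 1 = k by ring]
  ring

theorem L_C (c : Λ) : opL θ ν d * opC c - opC c * opL θ ν d = opC (θ c) := by
  ext f k
  simp only [Module.End.mul_apply, LinearMap.sub_apply, Pi.sub_apply, opL_apply, opC_apply,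
    Derivation.leibniz, smul_eq_mul]
  ring

theorem L_T (n : ℕ) (hdn : ∀ k, d (k + n) = d k) (c : Λ) :
    opL θ ν d * (opC c * opT n) - (opC c * opT n) * opL θ ν d =
      opC (θ c + ν * n * c) * opT n := by
  ext f k
  have h1 : d (k - n) = d k := by
    have := hdn (k - n)
    rw [sub_add_cancel] at this
    exact this.symm
  simp only [Module.End.mul_apply, LinearMap.sub_apply, Pi.sub_apply, opL_apply, opC_apply,
    opT_apply, Derivation.leibniz, smul_eq_mul, h1]
  push_cast
  rw [show k - 1 - (n : ℤ) = k - n - 1 by ring]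
  ring

/-- locality of the powers of `L` -/
theorem pow_local (m : ℕ) (f : ℤ → Λ) (k : ℤ) (h : ∀ j, k - m ≤ j → j ≤ k → f j = 0) :
    (opL θ ν d ^ m) f k = 0 := by
  induction m generalizing k with
  | zero =>
    rw [pow_zero, Module.End.one_apply]
    exact h k (by simp) le_rfl
  | succ m ih =>
    rw [pow_succ', Module.End.mul_apply, opL_apply, ih k, ih (k - 1)]
    · simp
    · intro j h1 h2
      apply h j _ (by linarith)
      push_cast
      linarith
    · intro j h1 h2
      apply h j _ h2
      push_cast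
      linarith

theorem pow_top (m : ℕ) (i : ℤ) :
    (opL θ ν d ^ m) (Pi.single i (1 : Λ)) (i + m) = (-1) ^ m := by
  induction m with
  | zero => simp
  | succ m ih =>
    rw [pow_succ', Module.End.mul_apply, opL_apply, pow_local θ ν d m _ (i + (m + 1 : ℕ))]
    · rw [show i + ((m + 1 : ℕ) : ℤ) - 1 = i + m by push_cast; ring, ih, pow_succ]
      simp
    · intro j h1 h2
      rw [Pi.single_eq_of_ne]
      push_cast at h1
      linarith

end

section

variable {Λ : Type*} [CommRing Λ] (p n : ℕ)

theorem end_p [CharP Λ p] (x : Module.End ℤ (ℤ → Λ)) : (p : Module.End ℤ (ℤ → Λ)) * x = 0 := by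
  ext f k
  rw [Module.End.mul_apply, Module.End.natCast_apply]
  simp

theorem theta_natCast (θ : Derivation ℤ Λ Λ) (m : ℕ) : θ (m : Λ) = 0 := θ.map_natCast m

/-- `ν` is fixed by Frobenius -/
theorem nu_pow (θ : Derivation ℤ Λ Λ) (hθ : ∀ c : Λ, (θ : Λ → Λ)^[p] c = θ c) (ν : Λ)
    (hν : θ ν = 0) (b d : ℤ → Λ) (hdn : ∀ k, d (k + n) = d k)
    (hb : ∀ k, θ (b k) = (ν + d k - d (k + 1)) * b k) (hu : ∀ k, IsUnit (b k)) :
    (n * ν) ^ p = n * ν := by
  have h1 : ∀ m : ℕ, θ (∏ k ∈ range m, b k) = (m * ν + d 0 - d m) * ∏ k ∈ range m, b k := by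
    intro m
    induction m with
    | zero => simp
    | succ m ih =>
      rw [prod_range_succ, Derivation.leibniz, ih, hb, smul_eq_mul, smul_eq_mul]
      push_cast
      ring
  have h2 := h1 n
  have h3 : d (n : ℤ) = d 0 := by
    have := hdn 0
    rwa [zero_add] at this
  rw [h3] at h2
  set u := ∏ k ∈ range n, b (k : ℤ) with hu'
  have huu : IsUnit u := by
    rw [hu']
    exact IsUnit.prod_iff.2 fun k _ => hu _
  have h4 : ∀ m : ℕ, (θ : Λ → Λ)^[m] u = (n * ν) ^ m * u := by
    intro m
    induction m with
    | zero => simp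
    | succ m ih =>
      rw [Function.iterate_succ_apply', ih, Derivation.leibniz, Derivation.leibniz_pow, h2,
        Derivation.leibniz, hν, theta_natCast]
      simp only [smul_eq_mul, mul_zero, zero_mul, smul_zero, add_zero]
      ring
  have h5 := h4 p
  rw [hθ, h2] at h5
  have h6 : ((n * ν) ^ p - n * ν) * u = 0 := by linear_combination -h5
  rw [huu.mul_left_eq_zero] at h6
  exact sub_eq_zero.1 h6

end

open Classical in
/-- The core: in characteristic `p` the radial periodic Toda equations force equality at the base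
point. -/
theorem core (p n : ℕ) [Fact p.Prime] (hn : 2 ≤ n) (hnp : n < p) {Λ : Type*} [CommRing Λ]
    [CharP Λ p] (θ : Derivation ℤ Λ Λ) (hθ : ∀ c : Λ, (θ : Λ → Λ)^[p] c = θ c) (ν : Λ)
    (hν : θ ν = 0) (b d : ℤ → Λ) (hbn : ∀ k, b (k + n) = b k) (hdn : ∀ k, d (k + n) = d k)
    (hb : ∀ k, θ (b k) = (ν + d k - d (k + 1)) * b k) (hd : ∀ k, θ (d k) = b k - b (k - 1))
    (hu : ∀ k, IsUnit (b k)) {F : Type*} [Field F] (ε : Λ →+* F) (hεν : ε ν ≠ 0) :
    (∀ k, ε (b k) = ε (b 0)) ∧ ∀ k, ε (d k) = ε (d 0) := by
  have hp : p.Prime := Fact.out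
  have hp2 : p ≠ 2 := by omega
  have hF : CharP F p := by
    have h0 : ((p : ℕ) : F) = 0 := by
      rw [← map_natCast ε, CharP.cast_eq_zero, map_zero]
    exact (CharP.charP_iff_prime_eq_zero hp).2 h0
  set L := opL θ ν d with hL
  set Z := opZ θ b with hZ
  set S := L ^ p - L with hS
  have hLZ : L * Z = Z * L := comm_LZ θ ν b d hν hb hd
  have hSZ : S * Z = Z * S := by
    have h1 : Commute L Z := hLZ
    have h2 : Commute (L ^ p) Z := h1.pow_left p
    exact h2.sub_left h1
  have hSL : S * L = L * S := by
    have h1 : Commute L L := Commute.refl L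
    exact (h1.pow_left p).sub_left h1
  -- `S` is linear over `Λ`
  have hSC : ∀ c : Λ, S * opC c = opC c * S := by
    intro c
    have h1 := ad_pow p hp hp2 (end_p (Λ := Λ) p) L (opC c)
    have h2 : ∀ m : ℕ, (fun T => L * T - T * L)^[m] (opC c) = opC ((θ : Λ → Λ)^[m] c) := by
      intro m
      induction m with
      | zero => rfl
      | succ m ih =>
        rw [Function.iterate_succ_apply', ih, Function.iterate_succ_apply']
        exact L_C θ ν d _
    rw [h2, hθ, ← L_C θ ν d c] at h1
    rw [← hL] at h1
    have e : (L ^ p * opC c - L * opC c) - (opC c * L ^ p - opC c * L) =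
        (L ^ p * opC c - opC c * L ^ p) - (L * opC c - opC c * L) := by abel
    rw [hS, sub_mul, mul_sub, ← sub_eq_zero, e, ← h1, sub_self]
  -- `S` commutes with the shift by `n`
  have hfr : (n * ν) ^ p = n * ν := nu_pow p n θ hθ ν hν b d hdn hb hu
  have hST : S * opT n = opT n * S := by
    have h1 := ad_pow p hp hp2 (end_p (Λ := Λ) p) L (opC 1 * opT n)
    have h2 : ∀ m : ℕ, (fun T => L * T - T * L)^[m] (opC 1 * opT n) =
        opC ((n * ν) ^ m) * opT n := by
      intro m
      induction m with
      | zero => simp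
      | succ m ih =>
        rw [Function.iterate_succ_apply', ih]
        rw [L_T θ ν d n hdn, Derivation.leibniz_pow, Derivation.leibniz, hν, theta_natCast]
        congr 2
        simp only [smul_eq_mul, mul_zero, smul_zero, add_zero, zero_add]
        ring
    have h3 := L_T θ ν d n hdn 1
    rw [h2, hfr] at h1
    rw [← hL] at h3
    have h4 : θ 1 + ν * n * 1 = n * ν := by
      rw [Derivation.map_one_eq_zero]
      ring
    rw [h4, h1] at h3
    have h5 : opC (1 : Λ) = 1 := by
      ext f k
      simp [opC_apply]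
    rw [h5, one_mul] at h3
    have e : (L ^ p * opT n - L * opT n) - (opT n * L ^ p - opT n * L) =
        (L ^ p * opT n - opT n * L ^ p) - (L * opT n - opT n * L) := by abel
    rw [hS, sub_mul, mul_sub, ← sub_eq_zero, e, ← h3, sub_self]
  -- the coefficients
  set A : ℤ → ℤ → Λ := fun j k => S (Pi.single (k - j) 1) k with hA
  have hloc : ∀ (f : ℤ → Λ) (k : ℤ), (∀ j, k - p ≤ j → j ≤ k → f j = 0) → S f k = 0 := by
    intro f k h
    rw [hS, LinearMap.sub_apply, Pi.sub_apply, hL, pow_local θ ν d p f k h]
    have h1 := pow_local θ ν d 1 f k (by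
      intro j h1 h2
      refine h j ?_ h2
      have : (1 : ℤ) ≤ p := by exact_mod_cast hp.one_lt.le
      push_cast at h1
      linarith)
    rw [pow_one] at h1
    rw [h1, sub_zero]
  have hneg : ∀ j k, j < 0 → A j k = 0 := by
    intro j k hj
    apply hloc
    intro i h1 h2
    rw [Pi.single_eq_of_ne]
    linarith
  have hbig : ∀ j k, (p : ℤ) < j → A j k = 0 := by
    intro j k hj
    apply hloc
    intro i h1 h2
    rw [Pi.single_eq_of_ne]
    linarith
  have htop : ∀ k, A p k = -1 := by
    intro k
    have h1 := pow_top θ ν d p (k - p)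
    rw [sub_add_cancel, (hp.odd_of_ne_two hp2).neg_one_pow] at h1
    have h2 : L (Pi.single (k - (p : ℤ)) 1) k = 0 := by
      have := pow_local θ ν d 1 (Pi.single (k - (p : ℤ)) 1) k (by
        intro j h1 h2
        rw [Pi.single_eq_of_ne]
        have : (2 : ℤ) ≤ p := by exact_mod_cast hp.two_le
        push_cast at h1
        linarith)
      rwa [pow_one] at this
    rw [hA]
    simp only
    rw [hS, LinearMap.sub_apply, Pi.sub_apply, h2, sub_zero, hL, h1]
  have hAn : ∀ j k, A j (k + n) = A j k := by
    intro j k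
    have h1 := congrArg (fun T : Module.End ℤ (ℤ → Λ) => T (Pi.single (k - j) 1) (k + n)) hST
    simp only [Module.End.mul_apply] at h1
    rw [opT_apply, add_sub_cancel_right] at h1
    have h2 : (opT n : Module.End ℤ (ℤ → Λ)) (Pi.single (k - j) 1) =
        Pi.single (k + n - j) 1 := by
      ext i
      rw [opT_apply, Pi.single_apply, Pi.single_apply]
      congr 1
      exact propext ⟨fun h => by linarith, fun h => by linarith⟩
    rw [h2] at h1
    exact h1
  -- `S (c e_m) k = c A (k - m) k`
  have hSe : ∀ (c : Λ) (m k : ℤ), S (Pi.single m c) k = c * A (k - m) k := by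
    intro c m k
    have h1 := congrArg (fun T : Module.End ℤ (ℤ → Λ) => T (Pi.single m 1) k) (hSC c)
    simp only [Module.End.mul_apply] at h1
    rw [opC_apply] at h1
    have h2 : opC c (Pi.single m (1 : Λ)) = Pi.single m c := by
      ext i
      rw [opC_apply, Pi.single_apply, Pi.single_apply]
      split_ifs <;> simp
    rw [h2] at h1
    rw [h1, hA]
    simp only
    rw [sub_sub_cancel]
  have hrel : ∀ i k : ℤ, -(ν * i) * A i k + (d k - d (k - i)) * A i k - A (i - 1) k +
      A (i - 1) (k - 1) + A (i + 1) k * b (k - i - 1) - b k * A (i + 1) (k + 1) = 0 := by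
    intro i k
    have hX : S * (L - Z) = (L - Z) * S := by
      rw [mul_sub, hSL, hSZ, sub_mul]
    have h1 := congrArg (fun T : Module.End ℤ (ℤ → Λ) => T (Pi.single (k - i) 1) k) hX
    simp only [Module.End.mul_apply] at h1
    have hXe : (L - Z) (Pi.single (k - i) 1) = Pi.single (k - i) (ν * (k - i : ℤ) - d (k - i)) -
        Pi.single (k - i + 1) 1 + Pi.single (k - i - 1) (b (k - i - 1)) := by
      ext j
      rw [LinearMap.sub_apply, Pi.sub_apply, hL, hZ, opL_apply, opZ_apply]
      simp only [Pi.add_apply, Pi.sub_apply, Pi.single_apply]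
      rcases lt_trichotomy j (k - i) with h | h | h
      · rcases eq_or_ne (j + 1) (k - i) with h' | h'
        · have e1 : j = k - i - 1 := by linarith
          have e2 : j ≠ k - i := by linarith
          have e3 : j - 1 ≠ k - i := by linarith
          have e4 : j ≠ k - i + 1 := by linarith
          rw [if_neg e2, if_neg e3, if_pos h', if_neg e2, if_neg e4, if_pos e1, e1]
          simp
        · have e1 : j ≠ k - i - 1 := fun h2 => h' (by linarith)
          have e2 : j ≠ k - i := by linarith
          have e3 : j - 1 ≠ k - i := by linarith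
          have e4 : j ≠ k - i + 1 := by linarith
          rw [if_neg e2, if_neg e3, if_neg h', if_neg e2, if_neg e4, if_neg e1]
          simp
      · have e1 : j ≠ k - i - 1 := by linarith
        have e3 : j - 1 ≠ k - i := by linarith
        have e4 : j ≠ k - i + 1 := by linarith
        have e5 : j + 1 ≠ k - i := by linarith
        rw [if_pos h, if_neg e3, if_neg e5, if_pos h, if_neg e4, if_neg e1, h]
        simp
      · rcases eq_or_ne (j - 1) (k - i) with h' | h'
        · have e1 : j = k - i + 1 := by linarith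
          have e2 : j ≠ k - i := by linarith
          have e3 : j + 1 ≠ k - i := by linarith
          have e4 : j ≠ k - i - 1 := by linarith
          rw [if_neg e2, if_pos h', if_neg e3, if_neg e2, if_pos e1, if_neg e4]
          simp
        · have e1 : j ≠ k - i + 1 := fun h2 => h' (by linarith)
          have e2 : j ≠ k - i := by linarith
          have e3 : j + 1 ≠ k - i := by linarith
          have e4 : j ≠ k - i - 1 := by linarith
          rw [if_neg e2, if_neg h', if_neg e3, if_neg e2, if_neg e1, if_neg e4]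
          simp
    rw [hXe, map_add, map_sub, Pi.add_apply, Pi.sub_apply, hSe, hSe, hSe] at h1
    have h2 : ∀ f : ℤ → Λ, (L - Z) f k = (ν * k - d k) * f k - f (k - 1) + b k * f (k + 1) := by
      intro f
      rw [LinearMap.sub_apply, Pi.sub_apply, hL, hZ, opL_apply, opZ_apply]
      ring
    rw [h2] at h1
    have e1 : S (Pi.single (k - i) 1) k = A i k := rfl
    have e2 : S (Pi.single (k - i) 1) (k - 1) = A (i - 1) (k - 1) := by
      rw [hSe, one_mul]
      congr 1
      ring
    have e3 : S (Pi.single (k - i) 1) (k + 1) = A (i + 1) (k + 1) := by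
      rw [hSe, one_mul]
      congr 1
      ring
    rw [e1, e2, e3, show k - (k - i) = i by ring, show k - (k - i + 1) = i - 1 by ring,
      show k - (k - i - 1) = i + 1 by ring] at h1
    push_cast at h1
    linear_combination h1
  have hnF : (n : F) ≠ 0 := by
    intro h
    rw [CharP.cast_eq_zero_iff F p] at h
    exact absurd (Nat.le_of_dvd (by omega) h) (by omega)
  have hcop : Nat.Coprime n p := by
    rw [Nat.coprime_comm, hp.coprime_iff_not_dvd]
    intro h
    exact absurd (Nat.le_of_dvd (by omega) h) (by omega)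
  have hB := fun k => congrArg ε (hbn k)
  have hD := fun k => congrArg ε (hdn k)
  obtain ⟨h1, h2⟩ := recursion p n hnF (ε ν) hεν (fun i k => ε (A i k)) (fun k => ε (b k))
    (fun k => ε (d k)) (fun i k => congrArg ε (hAn i k)) hB hD
    (fun k => ((hu k).map ε).ne_zero)
    (fun i k hi => by rw [hneg i k hi, map_zero])
    (fun i k hi => by rw [hbig i k hi, map_zero]) (-1) (by norm_num)
    (fun k => by rw [htop, map_neg, map_one])
    (fun i k => by
      have := congrArg ε (hrel i k)
      simpa only [map_add, map_sub, map_mul, map_neg, map_intCast, map_zero] using this)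
  exact ⟨fun k => const_of_periods p n hcop (fun k => ε (b k)) hB h1 k,
    fun k => const_of_periods p n hcop (fun k => ε (d k)) hD h2 k⟩

end Pool.Agent.H62.TD
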