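import Pool.Agent.H62.TD.Mod
import Pool.Agent.H38.EP.MainK
import Pool.Agent.H96.Kron3

/-!
# The radial periodic Toda lattice over a number field
-/

set_option autoImplicit false

namespace Pool.Agent.H62.TD

open PowerSeries Pool.Agent.H96.FI Filter IsDedekindDomain Pool.Agent.H96.LL Pool.Agent.H38.LL
  Pool.Agent.H38.EP Pool.Agent.H38.EP.NF

open scoped NumberField

section

variable {K : Type} [Field K] [NumberField K]

/-- almost all primes have a place above them -/
theorem exists_above : ∀ᶠ p : ℕ in atTop, p.Prime →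
    ∃ v : HeightOneSpectrum (𝓞 K), v.valuation K (p : K) < 1 := by
  filter_upwards [eventually_gt_atTop (Module.finrank ℚ K)] with p hp1 hp
  by_contra hcon
  push Not at hcon
  have h1 := trace_dvd (K := K) p hp 1 (fun v hv => absurd hv (not_lt.2 (hcon v)))
  have h2 : Algebra.trace ℤ (𝓞 K) 1 = (Module.finrank ℚ K : ℤ) := by
    have := Algebra.trace_algebraMap (R := ℤ) (S := 𝓞 K) 1
    rw [map_one] at this
    rw [this, NumberField.RingOfIntegers.rank]
    simp
  rw [h2] at h1
  have h3 : p ∣ Module.finrank ℚ K := by exact_mod_cast h1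
  exact absurd (Nat.le_of_dvd Module.finrank_pos h3) (not_le.2 hp1)

/-- an element which is small at all places above almost all primes vanishes -/
theorem eq_zero_of_small (x : K) (h : ∀ᶠ p : ℕ in atTop, p.Prime →
    ∀ v : HeightOneSpectrum (𝓞 K), v.valuation K (p : K) < 1 → v.valuation K x < 1) : x = 0 := by
  by_contra hx
  have hfr : ∃ᶠ p : ℕ in atTop, p.Prime := Nat.frequently_atTop_iff_infinite.2
    Nat.infinite_setOfPred_prime
  obtain ⟨p, hp, ⟨h1, h2⟩, h3⟩ := (hfr.and_eventually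
    ((h.and (exists_above (K := K))).and (eventually_val_eq_one x hx))).exists
  obtain ⟨v, hv⟩ := h2 hp
  have := h1 hp v hv
  rw [h3 hp v hv] at this
  exact lt_irrefl _ this

theorem C_mem {v : HeightOneSpectrum (𝓞 K)} {w : ℕ} {c : K} {c' : KV v} (h : (c, c') ∈ Gr v) :
    ((C c : K⟦X⟧), (C c' : (KV v)⟦X⟧)) ∈ Rd v w := by
  intro n _
  simp only [coeff_C]
  split_ifs
  · exact h
  · exact zero_mem (Gr v)

theorem X_mem {v : HeightOneSpectrum (𝓞 K)} {w : ℕ} :
    ((X : K⟦X⟧), (X : (KV v)⟦X⟧)) ∈ Rd v w := by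
  intro n _
  simp only [coeff_X]
  split_ifs
  · exact one_mem (Gr v)
  · exact zero_mem (Gr v)

theorem small_of_eq {v : HeightOneSpectrum (𝓞 K)} {x y : K × KV v} (hx : x ∈ Gr v)
    (hy : y ∈ Gr v) (h : x.2 = y.2) : v.valuation K (x.1 - y.1) < 1 := by
  obtain ⟨z, hz1, hz2⟩ := Gr_cast (sub_mem hx hy)
  rw [Prod.snd_sub, h, sub_self] at hz2
  rw [Prod.fst_sub] at hz1
  rw [← hz1]
  exact (phi_eq_zero_iff v z).1 hz2

theorem ne_zero_of_val {v : HeightOneSpectrum (𝓞 K)} {x : K × KV v} (hx : x ∈ Gr v)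
    (h : v.valuation K x.1 = 1) : x.2 ≠ 0 := by
  refine cast_ne_zero hx (fun h0 => ?_) ?_
  · rw [h0, map_zero] at h
    exact zero_ne_one h
  · rw [map_inv₀, h, inv_one]

/-- the local statement -/
theorem local_step (n : ℕ) (hn : 2 ≤ n) (c ν : K)
    (hc : c ≠ 0) (hν : ν ≠ 0) (b d : ℤ → K⟦X⟧)
    (hbn : ∀ i, b (i + n) = b i) (hdn : ∀ i, d (i + n) = d i)
    (hb : ∀ i, (C c + X) * d⁄dX K (b i) = (C ν + d i - d (i + 1)) * b i)
    (hd : ∀ i, (C c + X) * d⁄dX K (d i) = b i - b (i - 1))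
    (hu : ∀ i, constantCoeff (b i) ≠ 0) (hb3 : ∀ i, P3K (b i)) (hd3 : ∀ i, P3K (d i)) :
    ∀ᶠ p : ℕ in atTop, p.Prime → ∀ v : HeightOneSpectrum (𝓞 K), v.valuation K (p : K) < 1 →
      v.valuation K (ν ^ p - ν) < 1 ∧
      (∀ i, v.valuation K (constantCoeff (b i) - constantCoeff (b 0)) < 1) ∧
      (∀ i, v.valuation K (constantCoeff (d i) - constantCoeff (d 0)) < 1) := by
  have hn0 : (n : ℤ) ≠ 0 := by
    have : n ≠ 0 := by omega
    exact_mod_cast this
  have hred : ∀ i : ℤ, ∃ j ∈ Finset.range n, b i = b (j : ℤ) ∧ d i = d (j : ℤ) := by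
    intro i
    have h1 : Function.Periodic b (n : ℤ) := hbn
    have h2 : Function.Periodic d (n : ℤ) := hdn
    have h3 : 0 ≤ i % (n : ℤ) := Int.emod_nonneg _ hn0
    have h4 : i % (n : ℤ) < n := Int.emod_lt_of_pos _ (by omega)
    refine ⟨(i % (n : ℤ)).toNat, ?_, ?_, ?_⟩
    · rw [Finset.mem_range]
      omega
    · rw [Int.toNat_of_nonneg h3]
      conv_lhs => rw [← Int.emod_add_mul_ediv i n, mul_comm]
      exact h1.int_mul (i / n) (i % n)
    · rw [Int.toNat_of_nonneg h3]
      conv_lhs => rw [← Int.emod_add_mul_ediv i n, mul_comm]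
      exact h2.int_mul (i / n) (i % n)
  have e1 := (Filter.eventually_all_finset (Finset.range n)).2 fun j _ => hb3 (j : ℤ) 2
  have e2 := (Filter.eventually_all_finset (Finset.range n)).2 fun j _ => hd3 (j : ℤ) 2
  have e3 := (Filter.eventually_all_finset (Finset.range n)).2 fun (j : ℕ) _ =>
    eventually_val_eq_one (constantCoeff (b (j : ℤ))) (hu j)
  filter_upwards [e1, e2, e3, eventually_val_eq_one c hc, eventually_val_eq_one ν hν,
    eventually_gt_atTop n] with p hp1 hp2 hp3 hpc hpν hpn hp v hv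
  have : Fact p.Prime := ⟨hp⟩
  have : CharP (KV v) p := charP_KV v p hp hv
  have hp0 := hp.pos
  have hB : ∀ i, (b i, bar v (b i)) ∈ Rd v (p + 1) := by
    intro i
    obtain ⟨j, hj, hj1, hj2⟩ := hred i
    rw [hj1]
    exact bar_mem fun m hm => hp1 j hj hp v hv m (by omega)
  have hD : ∀ i, (d i, bar v (d i)) ∈ Rd v (p + 1) := by
    intro i
    obtain ⟨j, hj, hj1, hj2⟩ := hred i
    rw [hj2]
    exact bar_mem fun m hm => hp2 j hj hp v hv m (by omega)
  have hle : p ≤ p + 1 := Nat.le_succ p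
  have hB' := fun i => Rd_mono hle (hB i)
  have hD' := fun i => Rd_mono hle (hD i)
  have hcR : c ∈ RV v := (hpc hp v hv).le
  have hνR : ν ∈ RV v := (hpν hp v hv).le
  have hcG : (c, phi v ⟨c, hcR⟩) ∈ Gr v := mem_Gr ⟨c, hcR⟩
  have hνG : (ν, phi v ⟨ν, hνR⟩) ∈ Gr v := mem_Gr ⟨ν, hνR⟩
  have hB0 : ∀ i, (constantCoeff (b i), constantCoeff (bar v (b i))) ∈ Gr v := fun i => by
    simpa using hB i 0 (by omega)
  have hD0 : ∀ i, (constantCoeff (d i), constantCoeff (bar v (d i))) ∈ Gr v := fun i => by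
    simpa using hD i 0 (by omega)
  obtain ⟨k1, k2, k3⟩ := modp p n hn hpn (phi v ⟨c, hcR⟩) (phi v ⟨ν, hνR⟩)
    (ne_zero_of_val hcG (hpc hp v hv)) (ne_zero_of_val hνG (hpν hp v hv))
    (fun i => bar v (b i)) (fun i => bar v (d i)) (fun i => by simp only [hbn])
    (fun i => by simp only [hdn])
    (by
      intro i m hm
      have hL : ((C c + X) * d⁄dX K (b i), (C (phi v ⟨c, hcR⟩) + X) *
          d⁄dX (KV v) (bar v (b i))) ∈ Rd v p :=
        mul_mem (add_mem (C_mem hcG) X_mem) (Rd_derivative (hB i))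
      have hR : ((C ν + d i - d (i + 1)) * b i, (C (phi v ⟨ν, hνR⟩) + bar v (d i) -
          bar v (d (i + 1))) * bar v (b i)) ∈ Rd v p :=
        mul_mem (sub_mem (add_mem (C_mem hνG) (hD' i)) (hD' (i + 1))) (hB' i)
      refine Gr_unique (hL m hm) (hR m hm) ?_
      simp only
      rw [hb])
    (by
      intro i m hm
      have hL : ((C c + X) * d⁄dX K (d i), (C (phi v ⟨c, hcR⟩) + X) *
          d⁄dX (KV v) (bar v (d i))) ∈ Rd v p :=
        mul_mem (add_mem (C_mem hcG) X_mem) (Rd_derivative (hD i))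
      have hR : (b i - b (i - 1), bar v (b i) - bar v (b (i - 1))) ∈ Rd v p :=
        sub_mem (hB' i) (hB' (i - 1))
      refine Gr_unique (hL m hm) (hR m hm) ?_
      simp only
      rw [hd])
    (by
      intro i
      obtain ⟨j, hj, hj1, hj2⟩ := hred i
      refine ne_zero_of_val (hB0 i) ?_
      simp only
      rw [hj1]
      exact hp3 j hj hp v hv)
  refine ⟨?_, fun i => ?_, fun i => ?_⟩
  · exact small_of_eq (pow_mem hνG p) hνG k1
  · exact small_of_eq (hB0 i) (hB0 0) (k2 i)
  · exact small_of_eq (hD0 i) (hD0 0) (k3 i)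

omit [NumberField K] in
theorem X_pow_dvd_succ [CharZero K] {m : ℕ} {f : K⟦X⟧} (h : X ^ m ∣ d⁄dX K f)
    (h0 : constantCoeff f = 0) : X ^ (m + 1) ∣ f := by
  rw [X_pow_dvd_iff] at h ⊢
  intro j hj
  cases j with
  | zero => simpa using h0
  | succ j =>
    have h1 := h j (by omega)
    rw [coeff_derivative] at h1
    have h2 : ((j : K) + 1) ≠ 0 := by exact_mod_cast Nat.succ_ne_zero j
    exact (mul_eq_zero.1 h1).resolve_right h2

omit [NumberField K] in
theorem isUnit_lin (c : K) (hc : c ≠ 0) : IsUnit (C c + X : K⟦X⟧) := by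
  rw [isUnit_iff_constantCoeff]
  simpa using hc

omit [NumberField K] in
/-- a linear equation of first order has at most one solution with given initial value -/
theorem ode_zero [CharZero K] (c : K) (hc : c ≠ 0) (a f : K⟦X⟧) (hf : (C c + X) * d⁄dX K f = a * f)
    (h0 : constantCoeff f = 0) : f = 0 := by
  have hall : ∀ m : ℕ, X ^ m ∣ f := by
    intro m
    induction m with
    | zero => simp
    | succ m ih =>
      refine X_pow_dvd_succ ?_ h0
      have h1 : X ^ m ∣ (C c + X) * d⁄dX K f := by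
        rw [hf]
        exact ih.mul_left a
      exact ((isUnit_lin c hc).dvd_mul_left).1 h1
  ext m
  have := X_pow_dvd_iff.1 (hall (m + 1)) m (by omega)
  simpa using this

end

/-- T3. The theorem over a number field. -/
theorem main {K : Type} [Field K] [NumberField K] (n : ℕ) (hn : 2 ≤ n) (c ν : K)
    (hc : c ≠ 0) (hν : ν ≠ 0) (b d : ℤ → K⟦X⟧)
    (hbn : ∀ i, b (i + n) = b i) (hdn : ∀ i, d (i + n) = d i)
    (hb : ∀ i, (C c + X) * d⁄dX K (b i) = (C ν + d i - d (i + 1)) * b i)
    (hd : ∀ i, (C c + X) * d⁄dX K (d i) = b i - b (i - 1))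
    (hu : ∀ i, constantCoeff (b i) ≠ 0) (hb3 : ∀ i, P3K (b i)) (hd3 : ∀ i, P3K (d i)) :
    (∀ i, b i = b 0) ∧ (∀ i, d i = C (constantCoeff (d 0))) ∧ (∃ q : ℚ, algebraMap ℚ K q = ν) ∧
      IsAlgebraic (Polynomial K) (b 0) := by
  have hloc := local_step n hn c ν hc hν b d hbn hdn hb hd hu hb3 hd3
  have hrat : ∃ q : ℚ, algebraMap ℚ K q = ν := kronecker K ν (by
    filter_upwards [hloc] with p h hp v hv
    exact (h hp v hv).1)
  have hb0 : ∀ i, constantCoeff (b i) = constantCoeff (b 0) := fun i => by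
    rw [← sub_eq_zero]
    refine eq_zero_of_small _ ?_
    filter_upwards [hloc] with p h hp v hv
    exact (h hp v hv).2.1 i
  have hd0 : ∀ i, constantCoeff (d i) = constantCoeff (d 0) := fun i => by
    rw [← sub_eq_zero]
    refine eq_zero_of_small _ ?_
    filter_upwards [hloc] with p h hp v hv
    exact (h hp v hv).2.2 i
  have hunit := isUnit_lin c hc
  have hall : ∀ m : ℕ, ∀ i, X ^ m ∣ b i - b 0 ∧ X ^ m ∣ d i - d 0 := by
    intro m
    induction m with
    | zero => intro i; simp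
    | succ m ih =>
      intro i
      constructor
      · refine X_pow_dvd_succ ?_ (by rw [map_sub, hb0 i, sub_self])
        refine (hunit.dvd_mul_left).1 ?_
        have h1 : (C c + X) * d⁄dX K (b i - b 0) = (C ν + d 0 - d 1) * (b i - b 0) +
            ((d i - d 0) - (d (i + 1) - d 0) + (d 1 - d 0)) * b i := by
          rw [map_sub, mul_sub, hb i, hb 0, zero_add]
          ring
        rw [h1]
        exact dvd_add ((ih i).1.mul_left _)
          ((dvd_add (dvd_sub (ih i).2 (ih (i + 1)).2) (ih 1).2).mul_right _)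
      · refine X_pow_dvd_succ ?_ (by rw [map_sub, hd0 i, sub_self])
        refine (hunit.dvd_mul_left).1 ?_
        have h1 : (C c + X) * d⁄dX K (d i - d 0) = (b i - b 0) - (b (i - 1) - b 0) +
            (b (0 - 1) - b 0) := by
          rw [map_sub, mul_sub, hd i, hd 0]
          ring
        rw [h1]
        exact dvd_add (dvd_sub (ih i).1 (ih (i - 1)).1) (ih (0 - 1)).1
  have heq : ∀ f : K⟦X⟧, (∀ m, X ^ m ∣ f) → f = 0 := by
    intro f hf
    ext m
    have := X_pow_dvd_iff.1 (hf (m + 1)) m (by omega)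
    simpa using this
  have hbi : ∀ i, b i = b 0 := fun i => sub_eq_zero.1 (heq _ fun m => (hall m i).1)
  have hdi : ∀ i, d i = d 0 := fun i => sub_eq_zero.1 (heq _ fun m => (hall m i).2)
  have hdc : d 0 = C (constantCoeff (d 0)) := by
    have h1 : (C c + X) * d⁄dX K (d 0 - C (constantCoeff (d 0))) =
        0 * (d 0 - C (constantCoeff (d 0))) := by
      rw [map_sub, derivative_C, sub_zero, hd 0, hbi (0 - 1), sub_self, zero_mul]
    exact sub_eq_zero.1 (ode_zero c hc 0 _ h1 (by simp))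
  refine ⟨hbi, fun i => by rw [hdi i]; exact hdc, hrat, ?_⟩
  -- algebraicity
  obtain ⟨q, hq⟩ := hrat
  have hode : (C c + X) * d⁄dX K (b 0) = C ν * b 0 := by
    rw [hb 0, hdi (0 + 1), add_sub_cancel_right]
  set s : ℕ := q.den with hs
  have hs0 : 0 < s := q.den_pos
  set r1 : ℕ := q.num.toNat with hr1
  set r2 : ℕ := (-q.num).toNat with hr2
  have hr : (r1 : ℤ) - r2 = q.num := by omega
  have hνs : (s : K) * ν = (r1 : K) - r2 := by
    have h1 : (r1 : K) - r2 = ((q.num : ℤ) : K) := by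
      rw [← hr]
      push_cast
      ring
    rw [h1, ← hq, eq_ratCast]
    have h2 : (q : K) * (q.den : K) = (q.num : K) := by
      have h3 : q * (q.den : ℚ) = (q.num : ℚ) := Rat.mul_den_eq_num q
      exact_mod_cast congrArg (fun x : ℚ => (x : K)) h3
    rw [hs, mul_comm]
    exact h2
  set u : K⟦X⟧ := C c + X with hu'
  have hu1 : d⁄dX K u = 1 := by
    rw [hu', map_add, derivative_C, derivative_X, zero_add]
  have hcu : constantCoeff u = c := by simp [hu']
  set κ : K := constantCoeff (b 0) ^ s * c ^ r2 * (c ^ r1)⁻¹ with hκ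
  have hpow : ∀ (f : K⟦X⟧) (m : ℕ), u * d⁄dX K (f ^ m) = m * f ^ (m - 1) * (u * d⁄dX K f) := by
    intro f m
    rw [Derivation.leibniz_pow]
    simp only [smul_eq_mul, nsmul_eq_mul]
    ring
  have hupow : ∀ m : ℕ, u * d⁄dX K (u ^ m) = m * u ^ m := by
    intro m
    rw [hpow, hu1, mul_one]
    cases m with
    | zero => simp
    | succ m =>
      rw [Nat.add_sub_cancel, pow_succ]
      ring
  have hbpow : u * d⁄dX K (b 0 ^ s) = (s : K⟦X⟧) * C ν * b 0 ^ s := by
    rw [hpow, hode]
    obtain ⟨t, ht⟩ : ∃ t, s = t + 1 := ⟨s - 1, by omega⟩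
    rw [ht, Nat.add_sub_cancel, pow_succ]
    ring
  have hrel : b 0 ^ s * u ^ r2 - C κ * u ^ r1 = 0 := by
    refine ode_zero c hc (r1 : K⟦X⟧) _ ?_ ?_
    · have h1 : (s : K⟦X⟧) * C ν = (r1 : K⟦X⟧) - (r2 : K⟦X⟧) := by
        have h2 := congrArg (C : K →+* K⟦X⟧) hνs
        rw [map_mul, map_sub, map_natCast, map_natCast, map_natCast] at h2
        exact h2
      have h2 : u * d⁄dX K (b 0 ^ s * u ^ r2) = (r1 : K⟦X⟧) * (b 0 ^ s * u ^ r2) := by
        rw [Derivation.leibniz, smul_eq_mul, smul_eq_mul]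
        have h3 := hupow r2
        linear_combination b 0 ^ s * h3 + u ^ r2 * hbpow + b 0 ^ s * u ^ r2 * h1
      have h3 : u * d⁄dX K (C κ * u ^ r1) = (r1 : K⟦X⟧) * (C κ * u ^ r1) := by
        rw [Derivation.leibniz, smul_eq_mul, smul_eq_mul, derivative_C, mul_zero, add_zero]
        have h4 := hupow r1
        linear_combination C κ * h4
      rw [map_sub, mul_sub]
      change u * d⁄dX K (b 0 ^ s * u ^ r2) - u * d⁄dX K (C κ * u ^ r1) = _
      rw [h2, h3]
      ring
    · rw [map_sub, map_mul, map_mul, map_pow, map_pow, map_pow, hcu, constantCoeff_C, hκ,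
        inv_mul_cancel_right₀ (pow_ne_zero _ hc), sub_self]
  -- the polynomial
  set P : Polynomial (Polynomial K) :=
    Polynomial.C ((Polynomial.C c + Polynomial.X) ^ r2) * Polynomial.X ^ s -
      Polynomial.C (Polynomial.C κ * (Polynomial.C c + Polynomial.X) ^ r1) with hP
  have hlin : (Polynomial.C c + Polynomial.X : Polynomial K) ≠ 0 := by
    intro h
    have := congrArg (fun f => Polynomial.coeff f 1) h
    simp at this
  refine ⟨P, ?_, ?_⟩
  · intro h
    have h1 := congrArg (fun f => Polynomial.coeff f s) h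
    simp only [hP, Polynomial.coeff_sub, Polynomial.coeff_C_mul, Polynomial.coeff_X_pow,
      if_true, mul_one, Polynomial.coeff_zero] at h1
    rw [Polynomial.coeff_C, if_neg hs0.ne', sub_zero] at h1
    exact pow_ne_zero _ hlin h1
  · have e1 : algebraMap (Polynomial K) K⟦X⟧ (Polynomial.C c + Polynomial.X) = u := by
      rw [hu', PowerSeries.algebraMap_apply']
      simp
    have e2 : algebraMap (Polynomial K) K⟦X⟧ (Polynomial.C κ) = C κ := by
      rw [PowerSeries.algebraMap_apply']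
      simp
    have e3 : Polynomial.aeval (b 0) P = u ^ r2 * b 0 ^ s - C κ * u ^ r1 := by
      rw [hP, map_sub, map_mul, Polynomial.aeval_C, Polynomial.aeval_C, map_pow, map_pow,
        Polynomial.aeval_X, map_mul, map_pow, e1, e2]
    rw [e3, mul_comm]
    exact hrel

end Pool.Agent.H62.TD
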