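import Pool.Agent.H62.TD.Core

/-!
# The radial periodic Toda lattice modulo `p`
-/

set_option autoImplicit false

namespace Pool.Agent.H62.TD

open PowerSeries

section

variable (p n : ℕ) {k : Type*} [Field k] {Λ : Type*} [CommRing Λ] [Algebra k Λ] [CharP Λ p]
  (D : Derivation k Λ Λ)

theorem core_k [Fact p.Prime] (hn : 2 ≤ n) (hnp : n < p)
    (hθ : ∀ c : Λ, (D : Λ → Λ)^[p] c = D c) (ν : Λ)
    (hν : D ν = 0) (b d : ℤ → Λ) (hbn : ∀ k, b (k + n) = b k) (hdn : ∀ k, d (k + n) = d k)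
    (hb : ∀ k, D (b k) = (ν + d k - d (k + 1)) * b k) (hd : ∀ k, D (d k) = b k - b (k - 1))
    (hu : ∀ k, IsUnit (b k)) {F : Type*} [Field F] (ε : Λ →+* F) (hεν : ε ν ≠ 0) :
    (∀ k, ε (b k) = ε (b 0)) ∧ ∀ k, ε (d k) = ε (d 0) :=
  core p n hn hnp (D.restrictScalars ℤ) hθ ν hν b d hbn hdn hb hd hu ε hεν

omit [CharP Λ p] in
theorem nu_pow_k (hθ : ∀ c : Λ, (D : Λ → Λ)^[p] c = D c) (ν : Λ)
    (hν : D ν = 0) (b d : ℤ → Λ) (hdn : ∀ k, d (k + n) = d k)
    (hb : ∀ k, D (b k) = (ν + d k - d (k + 1)) * b k) (hu : ∀ k, IsUnit (b k)) :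
    (n * ν) ^ p = n * ν :=
  nu_pow p n (D.restrictScalars ℤ) hθ ν hν b d hdn hb hu

end

section

variable (p : ℕ) {k : Type*} [Field k] (c : k)

/-- the ideal generated by `X ^ p` -/
noncomputable abbrev IX (k : Type*) [Field k] : Ideal k⟦X⟧ := Ideal.span {(X : k⟦X⟧) ^ p}

/-- the derivation `(c + X) d/dX` -/
noncomputable def D0 : Derivation k k⟦X⟧ k⟦X⟧ := (C c + X : k⟦X⟧) • d⁄dX k

theorem D0_apply (f : k⟦X⟧) : D0 c f = (C c + X) * d⁄dX k f := rfl

theorem mk_eq_zero_iff (f : k⟦X⟧) :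
    Ideal.Quotient.mkₐ k (IX p k) f = 0 ↔ ∀ m < p, coeff m f = 0 := by
  rw [← X_pow_dvd_iff, Ideal.Quotient.mkₐ_eq_mk, Ideal.Quotient.eq_zero_iff_mem,
    Ideal.mem_span_singleton]

theorem D0_stable [CharP k p] (f : k⟦X⟧) (hf : Ideal.Quotient.mkₐ k (IX p k) f = 0) :
    Ideal.Quotient.mkₐ k (IX p k) (D0 c f) = 0 := by
  rw [Ideal.Quotient.mkₐ_eq_mk, Ideal.Quotient.eq_zero_iff_mem, Ideal.mem_span_singleton] at hf ⊢
  obtain ⟨g, rfl⟩ := hf
  have h0 : ((p : ℕ) : k⟦X⟧) = 0 := by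
    rw [← map_natCast (C (R := k)), CharP.cast_eq_zero, map_zero]
  have h1 : D0 c ((X : k⟦X⟧) ^ p * g) = X ^ p * D0 c g := by
    rw [Derivation.leibniz, Derivation.leibniz_pow, ← Nat.cast_smul_eq_nsmul k⟦X⟧, h0, zero_smul,
      smul_zero, add_zero, smul_eq_mul]
  rw [h1]
  exact dvd_mul_right _ _

/-- the induced derivation of `k[[X]] / (X ^ p)` -/
noncomputable def D1 [CharP k p] : Derivation k (k⟦X⟧ ⧸ IX p k) (k⟦X⟧ ⧸ IX p k) :=
  Derivation.liftOfSurjective (f := Ideal.Quotient.mkₐ k (IX p k))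
    (Ideal.Quotient.mkₐ_surjective k _) (d := D0 c) (D0_stable p c)

theorem D1_mk [CharP k p] (f : k⟦X⟧) : D1 p c (Ideal.Quotient.mkₐ k (IX p k) f) =
    Ideal.Quotient.mkₐ k (IX p k) (D0 c f) :=
  Derivation.liftOfSurjective_apply (Ideal.Quotient.mkₐ_surjective k _) (D0_stable p c) f

theorem D0_pow (m : ℕ) : D0 c ((C c + X : k⟦X⟧) ^ m) = (m : k) • (C c + X) ^ m := by
  have h1 : D0 c (C c + X : k⟦X⟧) = C c + X := by
    rw [D0_apply, map_add, derivative_C, derivative_X, zero_add, mul_one]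
  rw [Derivation.leibniz_pow, h1]
  rcases m with _ | m
  · simp
  · rw [Nat.add_sub_cancel, smul_eq_mul, ← pow_succ, Nat.cast_smul_eq_nsmul]

theorem D1_iter_pow [CharP k p] (m l : ℕ) :
    (D1 p c)^[l] (Ideal.Quotient.mkₐ k (IX p k) ((C c + X : k⟦X⟧) ^ m)) =
      ((m : k) ^ l) • Ideal.Quotient.mkₐ k (IX p k) ((C c + X : k⟦X⟧) ^ m) := by
  induction l with
  | zero => simp
  | succ l ih =>
    rw [Function.iterate_succ_apply', ih, Derivation.map_smul, D1_mk, D0_pow, map_smul, smul_smul,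
      ← pow_succ]

theorem D1_iter_add [CharP k p] (l : ℕ) (x y : k⟦X⟧ ⧸ IX p k) :
    (D1 p c)^[l] (x + y) = (D1 p c)^[l] x + (D1 p c)^[l] y := by
  induction l with
  | zero => simp
  | succ l ih => rw [Function.iterate_succ_apply', Function.iterate_succ_apply',
      Function.iterate_succ_apply', ih, map_add]

theorem D1_iter_smul [CharP k p] (l : ℕ) (a : k) (x : k⟦X⟧ ⧸ IX p k) :
    (D1 p c)^[l] (a • x) = a • (D1 p c)^[l] x := by
  induction l with
  | zero => simp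
  | succ l ih => rw [Function.iterate_succ_apply', Function.iterate_succ_apply', ih,
      Derivation.map_smul]

theorem D1_iter_p [Fact p.Prime] [CharP k p] (x : k⟦X⟧ ⧸ IX p k) : (D1 p c)^[p] x = D1 p c x := by
  have hspan : ∀ q : Polynomial k, (D1 p c)^[p] (Ideal.Quotient.mkₐ k (IX p k)
      (Polynomial.aeval (C c + X : k⟦X⟧) q)) =
      D1 p c (Ideal.Quotient.mkₐ k (IX p k) (Polynomial.aeval (C c + X : k⟦X⟧) q)) := by
    intro q
    induction q using Polynomial.induction_on' with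
    | add q r hq hr => rw [map_add, map_add, D1_iter_add, hq, hr, map_add]
    | monomial m a =>
      rw [Polynomial.aeval_monomial, ← Algebra.smul_def, map_smul, D1_iter_smul, D1_iter_pow,
        Derivation.map_smul]
      have h1 := D1_iter_pow p c m 1
      rw [Function.iterate_one, pow_one] at h1
      rw [h1]
      have h2 : (m : k) ^ p = m := by
        have h3 : ((m : ZMod p) ^ p : ZMod p) = m := ZMod.pow_card _
        have h4 := congrArg (ZMod.castHom (dvd_refl p) k) h3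
        rwa [map_pow, map_natCast] at h4
      rw [h2]
  obtain ⟨f, rfl⟩ := Ideal.Quotient.mkₐ_surjective k (IX p k) x
  have h1 : Ideal.Quotient.mkₐ k (IX p k) f = Ideal.Quotient.mkₐ k (IX p k)
      (Polynomial.aeval (C c + X : k⟦X⟧) ((trunc p f).comp (Polynomial.X - Polynomial.C c))) := by
    have h2 : Polynomial.aeval (C c + X : k⟦X⟧)
        ((trunc p f).comp (Polynomial.X - Polynomial.C c)) = (trunc p f : k⟦X⟧) := by
      rw [Polynomial.aeval_comp]
      have h3 : Polynomial.aeval (C c + X : k⟦X⟧) (Polynomial.X - Polynomial.C c) = X := by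
        rw [map_sub, Polynomial.aeval_X, Polynomial.aeval_C]
        change C c + X - C c = X
        ring
      rw [h3]
      have h4 : (Polynomial.aeval (X : k⟦X⟧) : Polynomial k →ₐ[k] k⟦X⟧) =
          Polynomial.coeToPowerSeries.algHom (R := k) k :=
        Polynomial.algHom_ext (by simp)
      rw [h4, Polynomial.coeToPowerSeries.algHom_apply]
      simp
    rw [h2, ← sub_eq_zero, ← map_sub, mk_eq_zero_iff]
    intro m hm
    rw [map_sub, Polynomial.coeff_coe, coeff_trunc, if_pos hm, sub_self]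
  rw [h1]
  exact hspan _

end

/-- Everything modulo `p`, up to the coefficient of index `p - 1`. -/
theorem modp (p n : ℕ) [Fact p.Prime] (hn : 2 ≤ n) (hnp : n < p) {k : Type*} [Field k] [CharP k p]
    (c ν : k) (hc : c ≠ 0) (hν : ν ≠ 0) (b d : ℤ → k⟦X⟧)
    (hbn : ∀ i, b (i + n) = b i) (hdn : ∀ i, d (i + n) = d i)
    (hb : ∀ i, ∀ m < p, coeff m ((C c + X) * d⁄dX k (b i)) =
      coeff m ((C ν + d i - d (i + 1)) * b i))
    (hd : ∀ i, ∀ m < p, coeff m ((C c + X) * d⁄dX k (d i)) = coeff m (b i - b (i - 1)))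
    (hu : ∀ i, constantCoeff (b i) ≠ 0) :
    ν ^ p = ν ∧ (∀ i, constantCoeff (b i) = constantCoeff (b 0)) ∧
      (∀ i, constantCoeff (d i) = constantCoeff (d 0)) := by
  have hp : p.Prime := Fact.out
  have hcong : ∀ f g : k⟦X⟧, (∀ m < p, coeff m f = coeff m g) →
      Ideal.Quotient.mkₐ k (IX p k) f = Ideal.Quotient.mkₐ k (IX p k) g := by
    intro f g h
    rw [← sub_eq_zero, ← map_sub, mk_eq_zero_iff]
    intro m hm
    rw [map_sub, h m hm, sub_self]
  -- the evaluation at the base point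
  set ε : (k⟦X⟧ ⧸ IX p k) →+* k := Ideal.Quotient.lift (IX p k) (constantCoeff (R := k)) (by
    intro f hf
    rw [Ideal.mem_span_singleton] at hf
    obtain ⟨g, rfl⟩ := hf
    rw [map_mul, map_pow, constantCoeff_X, zero_pow hp.ne_zero, zero_mul]) with hε
  have hεm : ∀ f : k⟦X⟧, ε (Ideal.Quotient.mkₐ k (IX p k) f) = constantCoeff f := fun f =>
    Ideal.Quotient.lift_mk _ _ _
  have hΛ : CharP (k⟦X⟧ ⧸ IX p k) p := by
    have : Nontrivial (k⟦X⟧ ⧸ IX p k) := ε.domain_nontrivial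
    exact charP_of_injective_algebraMap (algebraMap k (k⟦X⟧ ⧸ IX p k)).injective p
  have hθ := D1_iter_p p c
  have hνθ : D1 p c (Ideal.Quotient.mkₐ k (IX p k) (C ν)) = 0 := by
    rw [D1_mk, D0_apply, derivative_C, mul_zero, map_zero]
  have hb' : ∀ i, D1 p c (Ideal.Quotient.mkₐ k (IX p k) (b i)) =
      (Ideal.Quotient.mkₐ k (IX p k) (C ν) + Ideal.Quotient.mkₐ k (IX p k) (d i) -
        Ideal.Quotient.mkₐ k (IX p k) (d (i + 1))) * Ideal.Quotient.mkₐ k (IX p k) (b i) := by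
    intro i
    rw [D1_mk, ← map_add, ← map_sub, ← map_mul]
    exact hcong _ _ (hb i)
  have hd' : ∀ i, D1 p c (Ideal.Quotient.mkₐ k (IX p k) (d i)) =
      Ideal.Quotient.mkₐ k (IX p k) (b i) - Ideal.Quotient.mkₐ k (IX p k) (b (i - 1)) := by
    intro i
    rw [D1_mk, ← map_sub]
    exact hcong _ _ (hd i)
  have hu' : ∀ i, IsUnit (Ideal.Quotient.mkₐ k (IX p k) (b i)) := by
    intro i
    have h1 : IsUnit (b i) := by
      rw [isUnit_iff_constantCoeff, isUnit_iff_ne_zero]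
      exact hu i
    exact h1.map _
  have hdn' : ∀ i, Ideal.Quotient.mkₐ k (IX p k) (d (i + n)) =
      Ideal.Quotient.mkₐ k (IX p k) (d i) := fun i => by rw [hdn]
  have hbn' : ∀ i, Ideal.Quotient.mkₐ k (IX p k) (b (i + n)) =
      Ideal.Quotient.mkₐ k (IX p k) (b i) := fun i => by rw [hbn]
  obtain ⟨h1, h2⟩ := core_k p n (D1 p c) hn hnp hθ (Ideal.Quotient.mkₐ k (IX p k) (C ν)) hνθ
    (fun i => Ideal.Quotient.mkₐ k (IX p k) (b i)) (fun i => Ideal.Quotient.mkₐ k (IX p k) (d i))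
    hbn' hdn' hb' hd' hu' ε (by rw [hεm, constantCoeff_C]; exact hν)
  refine ⟨?_, fun i => ?_, fun i => ?_⟩
  · have h3 := nu_pow_k p n (D1 p c) hθ (Ideal.Quotient.mkₐ k (IX p k) (C ν)) hνθ
      (fun i => Ideal.Quotient.mkₐ k (IX p k) (b i)) (fun i => Ideal.Quotient.mkₐ k (IX p k) (d i))
      hdn' hb' hu'
    have h4 := congrArg ε h3
    rw [map_pow, map_mul, map_natCast, hεm, constantCoeff_C, mul_pow] at h4
    have h5 : (n : k) ^ p = n := by
      have h3 : ((n : ZMod p) ^ p : ZMod p) = n := ZMod.pow_card _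
      have h4 := congrArg (ZMod.castHom (dvd_refl p) k) h3
      rwa [map_pow, map_natCast] at h4
    rw [h5] at h4
    refine mul_left_cancel₀ ?_ h4
    intro h
    rw [CharP.cast_eq_zero_iff k p] at h
    exact absurd (Nat.le_of_dvd (by omega) h) (by omega)
  · have := h1 i
    rwa [hεm, hεm] at this
  · have := h2 i
    rwa [hεm, hεm] at this

end Pool.Agent.H62.TD
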