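import Mathlib

/-!
# The recursion for the middle coefficients of a difference operator
-/

set_option autoImplicit false

namespace Pool.Agent.H62.TD

open Finset

section

variable {F : Type*} [Field F]

theorem sum_periodic_shift (n : ℕ) (D : ℤ → F) (hD : ∀ k, D (k + n) = D k) (i : ℤ) :
    ∑ k ∈ range n, (D k - D ((k : ℤ) - i)) = 0 := by
  have key : ∀ j : ℤ, ∑ k ∈ range n, D ((k : ℤ) - (j + 1)) = ∑ k ∈ range n, D ((k : ℤ) - j) := by
    intro j
    rw [← sub_eq_zero, ← sum_sub_distrib]
    have h1 : ∀ k ∈ range n, D ((k : ℤ) - (j + 1)) - D ((k : ℤ) - j) =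
        (fun m : ℕ => -D ((m : ℤ) - 1 - j)) (k + 1) - (fun m : ℕ => -D ((m : ℤ) - 1 - j)) k := by
      intro k _
      simp only [Nat.cast_add, Nat.cast_one]
      rw [show (k : ℤ) + 1 - 1 - j = k - j by ring, show (k : ℤ) - 1 - j = k - (j + 1) by ring]
      ring
    rw [sum_congr rfl h1, Finset.sum_range_sub (fun m : ℕ => -D ((m : ℤ) - 1 - j)) n]
    have h2 := hD (-1 - j)
    simp only [Nat.cast_zero]
    rw [show (n : ℤ) - 1 - j = -1 - j + n by ring, h2]
    ring
  have h0 : ∀ j : ℤ, ∑ k ∈ range n, D ((k : ℤ) - j) = ∑ k ∈ range n, D ((k : ℤ) - 0) := by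
    intro j
    induction j using Int.induction_on with
    | zero => rfl
    | succ j ih => rw [key, ih]
    | pred j ih =>
      rw [← key (-(j : ℤ) - 1)]
      rw [show -(j : ℤ) - 1 + 1 = -j by ring, ih]
  rw [sum_sub_distrib, h0 i]
  simp

theorem const_of_periods {α : Type*} (p n : ℕ) (h : Nat.Coprime n p) (B : ℤ → α)
    (hn : ∀ k, B (k + n) = B k) (hp : ∀ k, B (k - p) = B k) (k : ℤ) : B k = B 0 := by
  have hn' : Function.Periodic B (n : ℤ) := hn
  have hp' : Function.Periodic B (p : ℤ) := by
    intro k
    have := hp (k + p)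
    rw [add_sub_cancel_right] at this
    exact this.symm
  have h1 : Function.Periodic B 1 := by
    have e := Int.gcd_eq_gcd_ab n p
    have h2 : ((Int.gcd n p : ℕ) : ℤ) = 1 := by
      rw [Int.gcd_natCast_natCast]
      exact_mod_cast h
    rw [h2] at e
    rw [e]
    have h3 := (hn'.int_mul (Int.gcdA n p)).add_period (hp'.int_mul (Int.gcdB n p))
    rw [mul_comm (n : ℤ), mul_comm (p : ℤ)]
    exact h3
  have h2 := h1.int_mul k
  have h3 := h2 0
  rw [zero_add, mul_one] at h3
  exact h3

/-- `A j k` are the coefficients of a difference operator of order `p` commuting with the operator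
`X`, `(X f)_k = (ν k - D_k) f_k - f_(k-1) + B_k f_(k+1)`. -/
theorem recursion (p n : ℕ) [Fact p.Prime] [CharP F p] (hn : (n : F) ≠ 0) (ν : F) (hν : ν ≠ 0)
    (A : ℤ → ℤ → F) (B D : ℤ → F) (hA : ∀ i k, A i (k + n) = A i k)
    (hB : ∀ k, B (k + n) = B k) (hD : ∀ k, D (k + n) = D k) (hB0 : ∀ k, B k ≠ 0)
    (hneg : ∀ i k, i < 0 → A i k = 0) (hbig : ∀ i k, (p : ℤ) < i → A i k = 0) (c : F) (hc : c ≠ 0)
    (htop : ∀ k, A p k = c)
    (hrel : ∀ i k : ℤ, -(ν * i) * A i k + (D k - D (k - i)) * A i k - A (i - 1) k +
      A (i - 1) (k - 1) + A (i + 1) k * B (k - i - 1) - B k * A (i + 1) (k + 1) = 0) :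
    (∀ k, B (k - p) = B k) ∧ ∀ k, D (k - p) = D k := by
  have hp : p.Prime := Fact.out
  -- the coefficient of index `0` is constant
  have hconst : ∀ k, A 0 (k + 1) = A 0 k := by
    intro k
    have h := hrel (-1) k
    rw [hneg (-1) k (by norm_num), hneg (-1 - 1) k (by norm_num),
      hneg (-1 - 1) (k - 1) (by norm_num)] at h
    norm_num at h
    have h2 : B k * (A 0 k - A 0 (k + 1)) = 0 := by linear_combination h
    rcases mul_eq_zero.1 h2 with h3 | h3
    · exact absurd h3 (hB0 k)
    · exact (sub_eq_zero.1 h3).symm
  have hmid : ∀ i : ℕ, 1 ≤ i → i < p → ∀ k, A i k = 0 := by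
    intro i
    induction i using Nat.strong_induction_on with
    | _ i ih =>
      intro hi1 hip
      -- the coefficients of index `i - 1` and `i - 2` do not depend on `k`
      have hc1 : ∀ j : ℤ, j < i → ∀ k, A j (k - 1) = A j k := by
        intro j hj k
        rcases lt_trichotomy j 0 with h0 | h0 | h0
        · rw [hneg j k h0, hneg j (k - 1) h0]
        · subst h0
          have := hconst (k - 1)
          rw [sub_add_cancel] at this
          exact this.symm
        · obtain ⟨m, rfl⟩ := Int.eq_ofNat_of_zero_le h0.le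
          have h1 : m < i := by exact_mod_cast hj
          have h2 : 1 ≤ m := by exact_mod_cast h0
          rw [ih m h1 h2 (h1.trans hip) k, ih m h1 h2 (h1.trans hip) (k - 1)]
      have hstep : ∀ k, A i k * B (k - i) = B k * A i (k + 1) := by
        intro k
        have h := hrel ((i : ℤ) - 1) k
        rw [hc1 ((i : ℤ) - 1 - 1) (by linarith) k] at h
        have h2 : -(ν * ((((i : ℤ) - 1 : ℤ)) : F)) * A ((i : ℤ) - 1) k +
            (D k - D (k - ((i : ℤ) - 1))) * A ((i : ℤ) - 1) k = 0 := by
          rcases Nat.eq_or_lt_of_le hi1 with h3 | h3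
          · rw [← h3]
            norm_num
          · have h4 : ((i : ℤ) - 1) = ((i - 1 : ℕ) : ℤ) := by omega
            rw [h4, ih (i - 1) (by omega) (by omega) (by omega) k]
            ring
        simp only [sub_add_cancel] at h
        rw [show k - ((i : ℤ) - 1) - 1 = k - i by ring] at h
        linear_combination h - h2
      by_contra hcon
      push Not at hcon
      obtain ⟨k0, hk0⟩ := hcon
      have hall : ∀ k, A i k ≠ 0 := by
        have hup : ∀ k, A i k ≠ 0 → A i (k + 1) ≠ 0 := by
          intro k hk h0
          have := hstep k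
          rw [h0, mul_zero] at this
          exact (mul_ne_zero hk (hB0 _)) this
        have hdown : ∀ k, A i (k + 1) ≠ 0 → A i k ≠ 0 := by
          intro k hk h0
          have := hstep k
          rw [h0, zero_mul] at this
          exact (mul_ne_zero (hB0 _) hk) this.symm
        have h1 : ∀ m : ℕ, A i (k0 + m) ≠ 0 := by
          intro m
          induction m with
          | zero => simpa using hk0
          | succ m ihm =>
            have := hup _ ihm
            rwa [add_assoc, ← Nat.cast_succ] at this
        have h2 : ∀ m : ℕ, A i (k0 - m) ≠ 0 := by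
          intro m
          induction m with
          | zero => simpa using hk0
          | succ m ihm =>
            apply hdown
            rwa [Nat.cast_succ, show k0 - ((m : ℤ) + 1) + 1 = k0 - m by ring]
        intro k
        rcases le_total k0 k with h | h
        · have := h1 (k - k0).toNat
          rwa [Int.toNat_of_nonneg (by linarith), add_sub_cancel] at this
        · have := h2 (k0 - k).toNat
          rwa [Int.toNat_of_nonneg (by linarith), sub_sub_cancel] at this
      set G : ℤ → F := fun k => A (i + 1) k * B (k - i - 1) / A i k with hG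
      have hGrel : ∀ k : ℤ, -(ν * i) + (D k - D (k - i)) + (G k - G (k + 1)) = 0 := by
        intro k
        have h := hrel i k
        rw [hc1 ((i : ℤ) - 1) (by linarith) k] at h
        have h1 : G (k + 1) * A i k = B k * A (i + 1) (k + 1) := by
          rw [hG]
          simp only
          rw [show k + 1 - (i : ℤ) - 1 = k - i by ring]
          have h2 := hstep k
          have h3 := hall (k + 1)
          field_simp
          linear_combination A (i + 1) (k + 1) * h2
        have h2 : G k * A i k = A (i + 1) k * B (k - i - 1) := by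
          rw [hG]
          simp only
          exact div_mul_cancel₀ _ (hall k)
        have h3 : (-(ν * i) + (D k - D (k - i)) + (G k - G (k + 1))) * A i k = 0 := by
          push_cast at h ⊢
          linear_combination h + h2 - h1
        exact (mul_eq_zero.1 h3).resolve_right (hall k)
      have hsum : ∑ k ∈ range n, (-(ν * i) + (D (k : ℤ) - D ((k : ℤ) - i)) +
          (G (k : ℤ) - G ((k : ℤ) + 1))) = 0 :=
        sum_eq_zero fun k _ => hGrel k
      rw [sum_add_distrib, sum_add_distrib, sum_periodic_shift n D hD i, sum_const, card_range,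
        nsmul_eq_mul] at hsum
      have htel : ∑ k ∈ range n, (G (k : ℤ) - G ((k : ℤ) + 1)) = 0 := by
        have h1 : ∀ k ∈ range n, G (k : ℤ) - G ((k : ℤ) + 1) =
            (fun m : ℕ => -G (m : ℤ)) (k + 1) - (fun m : ℕ => -G (m : ℤ)) k := by
          intro k _
          simp only [Nat.cast_add, Nat.cast_one]
          rw [sub_neg_eq_add, neg_add_eq_sub]
        rw [sum_congr rfl h1, Finset.sum_range_sub (fun m : ℕ => -G (m : ℤ)) n]
        have h2 : G (n : ℤ) = G 0 := by
          have e1 := hA (i + 1) 0
          have e2 := hA i 0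
          have e3 := hB (0 - i - 1)
          rw [zero_add] at e1 e2
          rw [hG]
          simp only
          rw [e1, e2, show (n : ℤ) - i - 1 = 0 - i - 1 + n by ring, e3]
        simp [h2]
      rw [htel] at hsum
      have h1 : (n : F) * (ν * i) = 0 := by linear_combination -hsum
      have h2 : (i : F) = 0 := by
        rcases mul_eq_zero.1 h1 with h3 | h3
        · exact absurd h3 hn
        · exact (mul_eq_zero.1 h3).resolve_left hν
      rw [CharP.cast_eq_zero_iff F p] at h2
      exact absurd (Nat.le_of_dvd (by omega) h2) (by omega)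
  have hp1 : 1 ≤ p := hp.one_lt.le
  -- the coefficient of index `p - 1` does not depend on `k`
  have hcm : ∀ k, A ((p : ℤ) - 1 - 1) (k - 1) = A ((p : ℤ) - 1 - 1) k := by
    intro k
    rcases Nat.lt_or_ge p 3 with h | h
    · have h2 : p = 2 := by have := hp.two_le; omega
      rw [h2]
      have := hconst (k - 1)
      rw [sub_add_cancel] at this
      simpa using this.symm
    · have e : (p : ℤ) - 1 - 1 = ((p - 2 : ℕ) : ℤ) := by omega
      rw [e, hmid (p - 2) (by omega) (by omega), hmid (p - 2) (by omega) (by omega)]
  have e1 : (p : ℤ) - 1 = ((p - 1 : ℕ) : ℤ) := by omega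
  have hm1 : ∀ k, A ((p : ℤ) - 1) k = 0 := by
    intro k
    rw [e1]
    exact hmid (p - 1) (by have := hp.two_le; omega) (by omega) k
  constructor
  · intro k
    have h := hrel ((p : ℤ) - 1) k
    simp only [sub_add_cancel] at h
    rw [hm1 k, hcm k, htop, htop, show k - ((p : ℤ) - 1) - 1 = k - p by ring] at h
    have h2 : c * (B (k - p) - B k) = 0 := by linear_combination h
    rcases mul_eq_zero.1 h2 with h3 | h3
    · exact absurd h3 hc
    · exact sub_eq_zero.1 h3
  · intro k
    have h := hrel p k
    rw [hm1 k, hm1 (k - 1), hbig ((p : ℤ) + 1) k (by linarith),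
      hbig ((p : ℤ) + 1) (k + 1) (by linarith), htop] at h
    have h0 : (((p : ℤ)) : F) = 0 := by
      rw [Int.cast_natCast]
      exact CharP.cast_eq_zero F p
    rw [h0] at h
    have h2 : c * (D k - D (k - p)) = 0 := by linear_combination h
    rcases mul_eq_zero.1 h2 with h3 | h3
    · exact absurd h3 hc
    · exact (sub_eq_zero.1 h3).symm

end

end Pool.Agent.H62.TD
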